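import Pool.Agent.Helper66.ND.Asm2
import Pool.Agent.Helper91.VZ.Sound

/-!
A faster form of the checker of `Pool.Agent.Helper66.ND`: the codes are computed together with
their lengths, since the kernel is slow at logarithms.
-/

namespace Pool.Agent.Helper91.NF

open Pool.Agent.Helper66
open Pool.Agent.Helper66.ND
open Pool.Agent.Helper66.IL
open Pool.Agent.Helper66.ML (pc hd mkc mkr ln code ln_pc)
open Pool.Agent.Helper91.VZ (frc frc_eq pk pk_eq)

/-- join two codes -/
noncomputable def pkl {R : Type} (h a la b lb : Nat) (f : Nat → Nat → R) : R :=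
  frc (pk h a la b lb) fun k => frc (Nat.add (Nat.add la lb) 2) fun l => f k l

theorem pkl_eq {R : Type} (m : Bool) (a b : ℕ) (f : ℕ → ℕ → R) :
    pkl (hd m) a (ln a) b (ln b) f = f (pc (hd m) a b) (ln (pc (hd m) a b)) := by
  unfold pkl
  rw [frc_eq, frc_eq, pk_eq rfl rfl, ln_pc]
  rfl

noncomputable def mkl {R : Type} (m : Bool) (a la b lb : Nat) (f : Nat → Nat → R) : R :=
  Bool.rec (pkl (hd m) a la b lb f) (Bool.rec (pkl (hd m) b lb a la f) (f 8 4) (Nat.beq b 0))
    (Nat.ble a b)

theorem pc_zero : pc 2 0 0 = 8 := by decide +kernel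

theorem ln_eight : ln 8 = 4 := by decide +kernel

theorem mkl_eq {R : Type} (m : Bool) (a b : ℕ) (f : ℕ → ℕ → R) :
    mkl m a (ln a) b (ln b) f = f (mkc m a b) (ln (mkc m a b)) := by
  unfold mkl mkc
  cases Nat.ble a b with
  | false => exact pkl_eq m a b f
  | true =>
    cases Nat.beq b 0 with
    | false => exact pkl_eq m b a f
    | true =>
      show f 8 4 = f (pc 2 0 0) (ln (pc 2 0 0))
      rw [pc_zero, ln_eight]

/-- the code of a number in unary -/
noncomputable def unf {R : Type} (k : Nat) : (Nat → Nat → R) → R :=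
  Nat.rec (motive := fun _ => (Nat → Nat → R) → R) (fun f => f 0 1)
    (fun _ ih f => ih fun a la => pkl 2 a la 0 1 f) k

theorem unf_eq {R : Type} (k : ℕ) : ∀ f : ℕ → ℕ → R, unf k f = f (un k) (ln (un k)) := by
  induction k with
  | zero => intro f; rfl
  | succ k ih =>
    intro f
    have e : unf (k + 1) f = unf k fun a la => pkl 2 a la 0 1 f := rfl
    rw [e, ih]
    exact pkl_eq false (un k) 0 f

noncomputable def lwf {R : Type} (i : Nat) : Nat → (Nat → Nat → R) → R :=
  Nat.rec (motive := fun _ => Nat → (Nat → Nat → R) → R) (fun k f => unf k f)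
    (fun _ ih k f => ih (Nat.div k 2) fun a la => pkl (Nat.add 2 (Nat.mod k 2)) a la 0 1 f) i

theorem lwf_eq {R : Type} (i : ℕ) : ∀ (k : ℕ) (f : ℕ → ℕ → R),
    lwf i k f = f (ND.lw i k) (ln (ND.lw i k)) := by
  induction i with
  | zero => intro k f; exact unf_eq k f
  | succ i ih =>
    intro k f
    have e : lwf (i + 1) k f =
      lwf i (Nat.div k 2) fun a la => pkl (Nat.add 2 (Nat.mod k 2)) a la 0 1 f := rfl
    rw [e, ih]
    have h1 : ND.lw (i + 1) k = pc (Nat.add 2 (Nat.mod k 2)) (ND.lw i (Nat.div k 2)) 0 := rfl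
    have h2 : Nat.add 2 (Nat.mod k 2) = hd (k % 2 == 1) := hd_mod k
    rw [h1, h2]
    exact pkl_eq _ _ 0 f

/-- the code of a label -/
noncomputable def lcf (k : Nat) : Nat := lwf 7 k fun a la => pk 2 0 1 a la

theorem lcf_eq (k : ℕ) : lcf k = lc k := by
  unfold lcf
  rw [lwf_eq]
  exact pk_eq rfl rfl

theorem ln_un (k : ℕ) : ln (un k) = 3 * k + 1 := by
  induction k with
  | zero => rfl
  | succ k ih =>
    have h1 : un (k + 1) = pc (hd false) (un k) 0 := rfl
    rw [h1, ln_pc, ih]
    show 3 * k + 1 + 1 + 2 = _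
    ring

theorem ln_lw (i : ℕ) : ∀ k, ln (ND.lw i k) = 3 * (k / 2 ^ i) + 1 + 3 * i := by
  induction i with
  | zero =>
    intro k
    have h1 : ND.lw 0 k = un k := rfl
    rw [h1, ln_un]
    simp
  | succ i ih =>
    intro k
    have h1 : ND.lw (i + 1) k = pc (Nat.add 2 (Nat.mod k 2)) (ND.lw i (Nat.div k 2)) 0 := rfl
    have h2 : Nat.add 2 (Nat.mod k 2) = hd (k % 2 == 1) := hd_mod k
    have h3 : Nat.div k 2 / 2 ^ i = k / 2 ^ (i + 1) := by
      rw [pow_succ', ← Nat.div_div_eq_div_mul]
      rfl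
    rw [h1, h2, ln_pc, ih, h3]
    show _ + 1 + 2 = _
    ring

theorem ln_lc (k : ℕ) : ln (lc k) = 3 * (k / 128) + 25 := by
  have h1 : lc k = pc (hd false) 0 (ND.lw 7 k) := rfl
  rw [h1, ln_pc, ln_lw]
  show 1 + _ + 2 = _
  norm_num
  ring

/-- the code of a labelled branch and its length -/
noncomputable def cdf {R : Type} (X : ND.LT) : (Nat → Nat → R) → R :=
  ND.LT.rec (motive := fun _ => (Nat → Nat → R) → R) (fun f => f 0 1)
    (fun k f => frc (lcf k) fun a => frc (Nat.add (Nat.mul 3 (Nat.div k 128)) 25) fun l => f a l)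
    (fun m _ _ ihx ihy f => ihx fun a la => ihy fun b lb => mkl m a la b lb f) X

theorem cdf_eq {R : Type} (X : ND.LT) : ∀ f : ℕ → ℕ → R, cdf X f = f (cd X) (ln (cd X)) := by
  induction X with
  | e => intro f; rfl
  | z k =>
    intro f
    have e : cdf (.z k) f = frc (lcf k) fun a =>
      frc (Nat.add (Nat.mul 3 (Nat.div k 128)) 25) fun l => f a l := rfl
    rw [e, frc_eq, frc_eq, lcf_eq, cd_z, ln_lc]
    rfl
  | n m x y ihx ihy =>
    intro f
    have e : cdf (.n m x y) f = cdf x fun a la => cdf y fun b lb => mkl m a la b lb f := rfl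
    rw [e, ihx, ihy, mkl_eq, cd_n]

/-- the code of the piece with marked root -/
noncomputable def cdrf (X : ND.LT) : Nat :=
  ND.LT.rec (motive := fun _ => Nat) 0 (fun k => lcf k)
    (fun _ x y _ _ => cdf x fun a la => cdf y fun b lb => mkl true a la b lb fun k _ => k) X

theorem cdrf_eq (X : ND.LT) : cdrf X = cdr X := by
  cases X with
  | e => rfl
  | z k => exact lcf_eq k
  | n m x y =>
    have e : cdrf (.n m x y) =
      cdf x fun a la => cdf y fun b lb => mkl true a la b lb fun k _ => k := rfl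
    rw [e, cdf_eq, cdf_eq, mkl_eq]
    rfl

/-- the code of the plain piece with marked root -/
noncomputable def rcf (X : ND.LT) : Nat :=
  ND.LT.rec (motive := fun _ => Nat) 0 (fun _ => 1)
    (fun _ x y _ _ => cdf x fun a la => cdf y fun b lb =>
      Bool.rec (Bool.rec (mkl true a la b lb fun k _ => k) (mkl false a la b lb fun k _ => k)
        (Nat.beq b 0)) (mkl false a la b lb fun k _ => k) (Nat.beq a 0)) X

theorem rcf_eq (X : ND.LT) : rcf X = rc X := by
  cases X with
  | e => rfl
  | z k => rfl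
  | n m x y =>
    have e : rcf (.n m x y) = cdf x fun a la => cdf y fun b lb =>
      Bool.rec (motive := fun _ => ℕ) (Bool.rec (motive := fun _ => ℕ)
        (mkl true a la b lb fun k _ => k) (mkl false a la b lb fun k _ => k)
        (Nat.beq b 0)) (mkl false a la b lb fun k _ => k) (Nat.beq a 0) := rfl
    rw [e, cdf_eq, cdf_eq]
    simp only [mkl_eq]
    rfl

/-- look up a claim -/
noncomputable def lkf (k : Nat) (N : NT) (L : Nat) : Bool :=
  frc k fun k => frc (NT.look k N) fun v => ba (Nat.ble v L) (Nat.ble v 1048575)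

/-- look up the value of a plain piece -/
noncomputable def vkf (v s L : Nat) : Bool :=
  frc v fun v => ba (Nat.ble v 65534) (Nat.ble (Nat.add v BI) (Nat.add (Nat.mul 25 s) L))

noncomputable def Sr (N : NT) (q : Rq) : Bool :=
  Rq.rec (fun f X L => ba f (lkf (cdrf X) N L))
    (fun _ _ a h => PA.rec (TP.rec true (fun _ _ _ _ => false) h) (fun _ _ _ _ => false) a) q

noncomputable def Sv (V : Nat → Nat) (q : Rq) : Bool :=
  Rq.rec (fun _ X L => ba (pl X) (vkf (V (rcf X)) (lsz X) L)) (fun _ _ _ _ => false) q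

noncomputable def Sc2 (L w : Nat) (iha ihb : Rq → Bool) (C : Cx) (Y : ND.LT) : Bool :=
  ba (ND.LT.rec false (fun _ => true) (fun _ _ _ _ _ => true) Y)
    (Cx.rec false
      (fun _ y C' _ => ba (iha (.nd true Y w))
        (ihb (.nd true (plg C' (.n true .e y)) (Nat.sub (Nat.add L BI) w))))
      (fun _ x C' _ => ba (iha (.nd true Y w))
        (ihb (.nd true (plg C' (.n true x .e)) (Nat.sub (Nat.add L BI) w)))) C)

noncomputable def Sc (p w : Nat) (iha ihb : Rq → Bool) (q : Rq) : Bool :=
  Rq.rec (fun _ X L => ba (Nat.ble w (Nat.add L BI)) (att X p .top (Sc2 L w iha ihb)))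
    (fun _ _ _ _ => false) q

noncomputable def St2 (A : AT) (i L : Nat) (iha : Rq → Bool) (C : Cx) (Y : ND.LT) : Bool :=
  ND.LT.rec false
    (fun k => TT.at (A.get k).ts i (fun b w => ba (Nat.ble w (Nat.add L BI))
      (iha (.nd true (plg C (oM b)) (Nat.sub (Nat.add L BI) w)))))
    (fun _ _ _ _ _ => false) Y

noncomputable def St (A : AT) (p i : Nat) (iha : Rq → Bool) (q : Rq) : Bool :=
  Rq.rec (fun _ X L => att X p .top (St2 A i L iha)) (fun _ _ _ _ => false) q

noncomputable def Su2 (A : AT) (j L : Nat) (iha : Rq → Bool) (C : Cx) (Y : ND.LT) : Bool :=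
  ND.LT.rec false
    (fun k => PT.at (A.get k).ps j (fun a h => iha (.ls C (Nat.add L (A.get k).off) a h)))
    (fun _ _ _ _ _ => false) Y

noncomputable def Su (A : AT) (p j : Nat) (iha : Rq → Bool) (q : Rq) : Bool :=
  Rq.rec (fun _ X L => att X p .top (Su2 A j L iha)) (fun _ _ _ _ => false) q

noncomputable def Sk (A : AT) (iha ihb : Rq → Bool) (q : Rq) : Bool :=
  Rq.rec (fun _ _ _ => false)
      (fun C L a h => PA.rec
        (TP.rec false (fun x y t _ =>
          ba (Nat.ble (Nat.add (ob A x) (ob A y)) (Nat.add L BI))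
            (ba (iha (.nd true (plg C (chn x y)) (Nat.sub (Nat.add L BI)
                (Nat.add (ob A x) (ob A y)))))
              (ihb (.ls C L .z t)))) h)
        (fun b w t _ => ba (Nat.ble w (Nat.add L (Nat.mul 3 BI)))
          (ba (iha (.nd true (plg C (oM b)) (Nat.sub (Nat.add L (Nat.mul 3 BI)) w)))
            (ihb (.ls C L t h)))) a) q

/-- the checker of certificates -/
noncomputable def chf (A : AT) (N : NT) (V : Nat → Nat) (c : Ct) : Rq → Bool :=
  Ct.rec (motive := fun _ => Rq → Bool) (Sr N) (Sv V) (fun p w _ _ iha ihb => Sc p w iha ihb)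
    (fun p i _ iha => St A p i iha) (fun p j _ iha => Su A p j iha)
    (fun _ _ iha ihb => Sk A iha ihb) c

theorem chf_eq (A : AT) (N : NT) (V : ℕ → ℕ) : ∀ c : Ct, chf A N V c = chk A N V c := by
  intro c
  induction c with
  | r =>
    funext q
    cases q with
    | nd f X L =>
      have e : chf A N V .r (.nd f X L) = ba f (lkf (cdrf X) N L) := rfl
      rw [e, cdrf_eq]
      unfold lkf
      rw [frc_eq, frc_eq]
      rfl
    | ls C L a h => rfl
  | v =>
    funext q
    cases q with
    | nd f X L =>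
      have e : chf A N V .v (.nd f X L) = ba (pl X) (vkf (V (rcf X)) (lsz X) L) := rfl
      rw [e, rcf_eq]
      unfold vkf
      rw [frc_eq]
      rfl
    | ls C L a h => rfl
  | c p w a b iha ihb =>
    have e : chf A N V (.c p w a b) = Sc p w (chf A N V a) (chf A N V b) := rfl
    rw [e, iha, ihb]
    rfl
  | t p i a iha =>
    have e : chf A N V (.t p i a) = St A p i (chf A N V a) := rfl
    rw [e, iha]
    rfl
  | u p j a iha =>
    have e : chf A N V (.u p j a) = Su A p j (chf A N V a) := rfl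
    rw [e, iha]
    rfl
  | k a b iha ihb =>
    have e : chf A N V (.k a b) = Sk A (chf A N V a) (chf A N V b) := rfl
    rw [e, iha, ihb]
    rfl

/-- the check of one node -/
noncomputable def ndf (A : AT) (N : NT) (V : Nat → Nat) (k w : Nat) (X : ND.LT) (c : Ct) : Bool :=
  ba (Nat.beq (cdrf X) k) (chf A N V c (.nd false X w))

theorem ndf_eq (A : AT) (N : NT) (V : ℕ → ℕ) (k w : ℕ) (X : ND.LT) (c : Ct) :
    ndf A N V k w X c = ba (Nat.beq (cdr X) k) (chk A N V c (.nd false X w)) := by
  unfold ndf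
  rw [cdrf_eq, chf_eq]

/-- the check of a part of the node table -/
noncomputable def NTf (A : AT) (N : NT) (V : Nat → Nat) (t : NT) : Bool :=
  NT.rec (motive := fun _ => Bool) true
    (fun k w X c _ _ ihl ihr => ba (ndf A N V k w X c) (ba ihl ihr)) t

theorem NTf_eq (A : AT) (N : NT) (V : ℕ → ℕ) : ∀ t : NT, NTf A N V t = NT.okb A N V t := by
  intro t
  induction t with
  | z => rfl
  | s k w X c l r ihl ihr =>
    have e : NTf A N V (.s k w X c l r) =
      ba (ndf A N V k w X c) (ba (NTf A N V l) (NTf A N V r)) := rfl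
    rw [e, ihl, ihr, ndf_eq]
    rfl

theorem nt_ok {A : AT} {N : NT} {V : ℕ → ℕ} {t : NT} (h : NTf A N V t = true) :
    NT.ok A N V t := by
  rw [NTf_eq] at h
  exact NT.ok_of_okb h

theorem nt_node {A : AT} {N : NT} {V : ℕ → ℕ} {k w : ℕ} {X : ND.LT} {c : Ct} {l r : NT}
    (h : ndf A N V k w X c = true) (hl : NT.ok A N V l) (hr : NT.ok A N V r) :
    NT.ok A N V (.s k w X c l r) := by
  rw [ndf_eq] at h
  exact ok_node h hl hr

/-- the check of one pair of a row -/
noncomputable def pcf (A : AT) (N : NT) (V : Nat → Nat) (x y : Nat) (c : Ct) : Bool :=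
  ba (Nat.ble (Nat.add (ob A x) (ob A y)) (Nat.sub (Nat.mul 3 BI) 2))
    (chf A N V c (.nd true (chn x y) (Nat.sub (Nat.sub (Nat.mul 3 BI) 2)
      (Nat.add (ob A x) (ob A y)))))

/-- the check of a row -/
noncomputable def rof (A : AT) (N : NT) (V : Nat → Nat) (n x : Nat) (r : PR) : Nat → Bool :=
  PR.rec (motive := fun _ => Nat → Bool) (fun y => Nat.blt x y)
    (fun k _ ih y => ba (ba (Nat.blt k n) (TP.mem x y (A.get k).pre)) (ih (Nat.succ y)))
    (fun c _ ih y => ba (pcf A N V x y c) (ih (Nat.succ y))) r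

theorem rof_eq (A : AT) (N : NT) (V : ℕ → ℕ) (n x : ℕ) : ∀ r : PR,
    rof A N V n x r = rok A N V n x r := by
  intro r
  induction r with
  | z => rfl
  | t k r ih =>
    have e : rof A N V n x (.t k r) = fun y =>
      ba (ba (Nat.blt k n) (TP.mem x y (A.get k).pre)) (rof A N V n x r (Nat.succ y)) := rfl
    rw [e, ih]
    rfl
  | c c r ih =>
    have e : rof A N V n x (.c c r) = fun y =>
      ba (pcf A N V x y c) (rof A N V n x r (Nat.succ y)) := rfl
    rw [e, ih]
    unfold pcf
    rw [chf_eq]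
    rfl

noncomputable def RSf (A : AT) (N : NT) (V : Nat → Nat) (n : Nat) (r : RS) : Nat → Bool :=
  RS.rec (motive := fun _ => Nat → Bool) (fun _ => true)
    (fun r _ ih x => ba (rof A N V n x r 0) (ih (Nat.succ x))) r

theorem RSf_eq (A : AT) (N : NT) (V : ℕ → ℕ) (n : ℕ) : ∀ r : RS,
    RSf A N V n r = RS.okb A N V n r := by
  intro r
  induction r with
  | z => rfl
  | s r t ih =>
    have e : RSf A N V n (.s r t) = fun x =>
      ba (rof A N V n x r 0) (RSf A N V n t (Nat.succ x)) := rfl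
    rw [e, ih]
    funext x
    rw [rof_eq]
    rfl

theorem row_cons {A : AT} {N : NT} {V : ℕ → ℕ} {n x : ℕ} {r : PR} {t : RS}
    (h : rof A N V n x r 0 = true) (ht : RS.okb A N V n t (x + 1) = true) :
    RS.okb A N V n (.s r t) x = true := by
  rw [rof_eq] at h
  exact rs_cons h ht

end Pool.Agent.Helper91.NF
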